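import Pool.Agent.Helper19.PS.Defs

/-!
# Piece PS-2 (MP_19c155_gt): inequalities for skew matrices
-/

open MeasureTheory Set Metric Filter Module Matrix
open scoped NNReal Topology RealInnerProductSpace ENNReal Real

namespace Pool.Agent.Helper19.PS

private lemma ps2_trace {d : ℕ} (C D : Matrix (Fin d) (Fin d) ℝ) :
    trace (Cᵀ * D) = ∑ j, ∑ k, C j k * D j k := by
  simp only [trace, diag_apply, mul_apply, transpose_apply]
  exact Finset.sum_comm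

private lemma ps2_dot_nonneg {d : ℕ} (v : Fin d → ℝ) : 0 ≤ v ⬝ᵥ v := by
  simp only [dotProduct]
  exact Finset.sum_nonneg fun i _ => mul_self_nonneg _

private lemma ps2_cs {d : ℕ} (v w : Fin d → ℝ) : (v ⬝ᵥ w) ^ 2 ≤ (v ⬝ᵥ v) * (w ⬝ᵥ w) := by
  simp only [dotProduct]
  have := Finset.sum_mul_sq_le_sq_mul_sq Finset.univ v w
  simpa [sq] using this

theorem NF.be_eq {d : ℕ} (S : NF d) :
    ∑ i, (S.b i ⬝ᵥ S.b i + 1 / 2 * trace ((S.C i)ᵀ * S.C i)) = S.be := by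
  have h : ∀ i, S.b i ⬝ᵥ S.b i + 1 / 2 * trace ((S.C i)ᵀ * S.C i) = 1 - S.a i ⬝ᵥ S.a i := by
    intro i
    have := S.orth i i
    simp only [if_true] at this
    linarith
  simp only [h, Finset.sum_sub_distrib, S.top]
  simp

theorem NF.be_nonneg {d : ℕ} (S : NF d) : 0 ≤ S.be := by
  rw [← S.be_eq]
  refine Finset.sum_nonneg fun i _ => ?_
  have h1 := ps2_dot_nonneg (S.b i)
  have h2 : 0 ≤ trace ((S.C i)ᵀ * S.C i) := by
    rw [ps2_trace]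
    exact Finset.sum_nonneg fun j _ => Finset.sum_nonneg fun k _ => mul_self_nonneg _
  linarith

theorem NF.be_le {d : ℕ} (S : NF d) : S.be ≤ d := by
  have h : 0 ≤ ∑ i, S.a i ⬝ᵥ S.a i := Finset.sum_nonneg fun i _ => ps2_dot_nonneg _
  rw [S.top] at h
  linarith

private lemma ps2_sum_dot {d : ℕ} (x : Fin d → ℝ) (v : Fin d → Fin d → ℝ) :
    (∑ i, x i • v i) ⬝ᵥ (∑ i, x i • v i) = ∑ i, ∑ j, x i * x j * (v i ⬝ᵥ v j) := by
  rw [sum_dotProduct]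
  refine Finset.sum_congr rfl fun i _ => ?_
  rw [dotProduct_sum]
  refine Finset.sum_congr rfl fun j _ => ?_
  rw [smul_dotProduct, dotProduct_smul]
  simp only [smul_eq_mul]
  ring

private lemma ps2_sum_tr {d : ℕ} (x : Fin d → ℝ) (C : Fin d → Matrix (Fin d) (Fin d) ℝ) :
    trace ((∑ i, x i • C i)ᵀ * (∑ i, x i • C i)) = ∑ i, ∑ j, x i * x j * trace ((C i)ᵀ * C j) := by
  rw [transpose_sum, Finset.sum_mul, trace_sum]
  refine Finset.sum_congr rfl fun i _ => ?_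
  rw [Finset.mul_sum, trace_sum]
  refine Finset.sum_congr rfl fun j _ => ?_
  rw [transpose_smul, Matrix.smul_mul, Matrix.mul_smul, trace_smul, trace_smul]
  simp only [smul_eq_mul]
  ring

private lemma ps2_a_norm {d : ℕ} (S : NF d) (x : Fin d → ℝ) :
    (∑ i, x i • S.a i) ⬝ᵥ (∑ i, x i • S.a i) ≤ x ⬝ᵥ x := by
  have h1 := ps2_dot_nonneg (∑ i, x i • S.b i)
  have h2 : 0 ≤ trace ((∑ i, x i • S.C i)ᵀ * (∑ i, x i • S.C i)) := by
    rw [ps2_trace]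
    exact Finset.sum_nonneg fun j _ => Finset.sum_nonneg fun k _ => mul_self_nonneg _
  have h3 : (∑ i, x i • S.a i) ⬝ᵥ (∑ i, x i • S.a i) + (∑ i, x i • S.b i) ⬝ᵥ (∑ i, x i • S.b i)
      + 1 / 2 * trace ((∑ i, x i • S.C i)ᵀ * (∑ i, x i • S.C i)) = x ⬝ᵥ x := by
    rw [ps2_sum_dot, ps2_sum_dot, ps2_sum_tr, Finset.mul_sum, ← Finset.sum_add_distrib,
      ← Finset.sum_add_distrib]
    have : ∀ i, (∑ j, x i * x j * (S.a i ⬝ᵥ S.a j)) + (∑ j, x i * x j * (S.b i ⬝ᵥ S.b j))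
        + 1 / 2 * ∑ j, x i * x j * trace ((S.C i)ᵀ * S.C j) = x i * x i := by
      intro i
      rw [Finset.mul_sum, ← Finset.sum_add_distrib, ← Finset.sum_add_distrib]
      have : ∀ j, x i * x j * (S.a i ⬝ᵥ S.a j) + x i * x j * (S.b i ⬝ᵥ S.b j)
          + 1 / 2 * (x i * x j * trace ((S.C i)ᵀ * S.C j)) = if i = j then x i * x j else 0 := by
        intro j
        have h := S.orth i j
        have e : x i * x j * (S.a i ⬝ᵥ S.a j) + x i * x j * (S.b i ⬝ᵥ S.b j)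
          + 1 / 2 * (x i * x j * trace ((S.C i)ᵀ * S.C j)) = x i * x j *
            (S.a i ⬝ᵥ S.a j + S.b i ⬝ᵥ S.b j + 1 / 2 * trace ((S.C i)ᵀ * S.C j)) := by ring
        rw [e, h]
        split_ifs <;> simp
      simp only [this]
      simp
    rw [Finset.sum_congr rfl fun i _ => this i]
    rfl
  linarith

theorem NF.pp_le {d : ℕ} (S : NF d) (y : Fin d → ℝ) : S.pp y ≤ y ⬝ᵥ y := by
  set x : Fin d → ℝ := fun i => S.a i ⬝ᵥ y with hx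
  have h1 : S.pp y = y ⬝ᵥ (∑ i, x i • S.a i) := by
    rw [dotProduct_sum]
    unfold NF.pp
    refine Finset.sum_congr rfl fun i _ => ?_
    rw [dotProduct_smul, dotProduct_comm y, smul_eq_mul, hx]
    ring
  have h2 : x ⬝ᵥ x = S.pp y := by
    unfold NF.pp
    simp only [dotProduct, hx]
    exact Finset.sum_congr rfl fun i _ => by ring
  have h3 := ps2_a_norm S x
  have h4 := ps2_cs y (∑ i, x i • S.a i)
  rw [← h1] at h4
  rw [h2] at h3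
  have h5 : 0 ≤ S.pp y := Finset.sum_nonneg fun i _ => sq_nonneg _
  have h6 := ps2_dot_nonneg y
  have h7 : S.pp y ^ 2 ≤ (y ⬝ᵥ y) * S.pp y := h4.trans (mul_le_mul_of_nonneg_left h3 h6)
  rcases h5.eq_or_lt with h8 | h8
  · rw [← h8]; exact h6
  · have : S.pp y * S.pp y ≤ (y ⬝ᵥ y) * S.pp y := by rw [← sq]; exact h7
    exact le_of_mul_le_mul_right this h8

private lemma ps2_skew {d : ℕ} (C : Matrix (Fin d) (Fin d) ℝ) (hC : Cᵀ = -C) (b y : Fin d → ℝ)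
    (τ : ℝ) :
    (b ⬝ᵥ y) ^ 2 + (τ • b + C *ᵥ y) ⬝ᵥ (τ • b + C *ᵥ y)
      ≤ (b ⬝ᵥ b + 1 / 2 * trace (Cᵀ * C)) * (τ ^ 2 + y ⬝ᵥ y) := by
  set w : Fin d → ℝ := τ • b + C *ᵥ y with hw
  set s : ℝ := -(b ⬝ᵥ y) with hs
  set X : ℝ := τ ^ 2 + y ⬝ᵥ y with hX
  have hy := ps2_dot_nonneg y
  have e1 : ∑ j, (X * b j + s * y j - τ * w j) ^ 2
      = X ^ 2 * (b ⬝ᵥ b) + s ^ 2 * (y ⬝ᵥ y) + τ ^ 2 * (w ⬝ᵥ w) + 2 * X * s * (b ⬝ᵥ y)
        - 2 * X * τ * (b ⬝ᵥ w) - 2 * s * τ * (w ⬝ᵥ y) := by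
    simp only [dotProduct, Finset.mul_sum, ← Finset.sum_add_distrib, ← Finset.sum_sub_distrib]
    exact Finset.sum_congr rfl fun i _ => by ring
  have e2 : ∑ j, ∑ k, (X * C j k - w j * y k + y j * w k) ^ 2
      = X ^ 2 * trace (Cᵀ * C) + 2 * ((w ⬝ᵥ w) * (y ⬝ᵥ y)) - 4 * X * (w ⬝ᵥ (C *ᵥ y))
        - 2 * (w ⬝ᵥ y) ^ 2 := by
    have f1 : w ⬝ᵥ (C *ᵥ y) = ∑ j, ∑ k, C j k * (w j * y k) := by
      simp only [dotProduct, mulVec, Finset.mul_sum]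
      exact Finset.sum_congr rfl fun i _ => Finset.sum_congr rfl fun k _ => by ring
    have f2 : w ⬝ᵥ (C *ᵥ y) = -∑ j, ∑ k, C j k * (y j * w k) := by
      rw [f1, Finset.sum_comm, ← Finset.sum_neg_distrib]
      refine Finset.sum_congr rfl fun k _ => ?_
      rw [← Finset.sum_neg_distrib]
      refine Finset.sum_congr rfl fun j _ => ?_
      have : C j k = - C k j := by
        have := congrFun (congrFun hC k) j
        simpa using this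
      rw [this]; ring
    have f3 : (w ⬝ᵥ w) * (y ⬝ᵥ y) = ∑ j, ∑ k, (w j * w j) * (y k * y k) := by
      simp only [dotProduct, Finset.sum_mul_sum]
    have f4 : (w ⬝ᵥ w) * (y ⬝ᵥ y) = ∑ j, ∑ k, (y j * y j) * (w k * w k) := by
      rw [mul_comm]
      simp only [dotProduct, Finset.sum_mul_sum]
    have f5 : (w ⬝ᵥ y) ^ 2 = ∑ j, ∑ k, (w j * y j) * (w k * y k) := by
      rw [sq]
      simp only [dotProduct, Finset.sum_mul_sum]
    have f6 : X ^ 2 * trace (Cᵀ * C) + 2 * ((w ⬝ᵥ w) * (y ⬝ᵥ y)) - 4 * X * (w ⬝ᵥ (C *ᵥ y))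
        - 2 * (w ⬝ᵥ y) ^ 2 = X ^ 2 * (∑ j, ∑ k, C j k * C j k)
          + (∑ j, ∑ k, (w j * w j) * (y k * y k)) + (∑ j, ∑ k, (y j * y j) * (w k * w k))
          - 2 * X * (∑ j, ∑ k, C j k * (w j * y k)) + 2 * X * (∑ j, ∑ k, C j k * (y j * w k))
          - 2 * ∑ j, ∑ k, (w j * y j) * (w k * y k) := by
      rw [← f1, ← f3, ← f4, ← f5, ← ps2_trace]
      have : (∑ j, ∑ k, C j k * (y j * w k)) = -(w ⬝ᵥ (C *ᵥ y)) := by rw [f2]; ring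
      rw [this]
      ring
    rw [f6]
    simp only [Finset.mul_sum, ← Finset.sum_add_distrib, ← Finset.sum_sub_distrib]
    exact Finset.sum_congr rfl fun i _ => Finset.sum_congr rfl fun k _ => by ring
  have p1 : 0 ≤ ∑ j, (X * b j + s * y j - τ * w j) ^ 2 := Finset.sum_nonneg fun i _ => sq_nonneg _
  have p2 : 0 ≤ ∑ j, ∑ k, (X * C j k - w j * y k + y j * w k) ^ 2 :=
    Finset.sum_nonneg fun i _ => Finset.sum_nonneg fun k _ => sq_nonneg _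
  rw [e1] at p1
  rw [e2] at p2
  have g1 : w ⬝ᵥ w = τ * (b ⬝ᵥ w) + w ⬝ᵥ (C *ᵥ y) := by
    have : w ⬝ᵥ w = w ⬝ᵥ (τ • b + C *ᵥ y) := by rw [← hw]
    rw [this, dotProduct_add, dotProduct_smul, dotProduct_comm w b, smul_eq_mul]
  have g2 : b ⬝ᵥ y = -s := by rw [hs]; ring
  rw [g2] at p1 ⊢
  have g3 : (-s) ^ 2 = s ^ 2 := by ring
  rw [g3]
  have hX0 : 0 ≤ X := by positivity
  rcases hX0.eq_or_lt with h0 | h0
  · -- X = 0
    have hτ : τ = 0 := by nlinarith [sq_nonneg τ]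
    have hy0 : y ⬝ᵥ y = 0 := by nlinarith [sq_nonneg τ]
    have hy1 : y = 0 := dotProduct_self_eq_zero.mp hy0
    have hs0 : s = 0 := by rw [hs, hy1]; simp
    have hw0 : w = 0 := by rw [hw, hy1, hτ]; simp
    rw [hs0, hw0, ← h0]; simp
  · have key : 0 ≤ X * ((b ⬝ᵥ b + 1 / 2 * trace (Cᵀ * C)) * X - (s ^ 2 + w ⬝ᵥ w)) := by
      have hτX : τ ^ 2 = X - y ⬝ᵥ y := by rw [hX]; ring
      have : X * ((b ⬝ᵥ b + 1 / 2 * trace (Cᵀ * C)) * X - (s ^ 2 + w ⬝ᵥ w))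
          = 1 / 2 * (2 * (X ^ 2 * (b ⬝ᵥ b) + s ^ 2 * (y ⬝ᵥ y) + τ ^ 2 * (w ⬝ᵥ w) + 2 * X * s * (-s)
        - 2 * X * τ * (b ⬝ᵥ w) - 2 * s * τ * (w ⬝ᵥ y)) + (X ^ 2 * trace (Cᵀ * C)
        + 2 * ((w ⬝ᵥ w) * (y ⬝ᵥ y)) - 4 * X * (w ⬝ᵥ (C *ᵥ y)) - 2 * (w ⬝ᵥ y) ^ 2))
          + (s * τ + w ⬝ᵥ y) ^ 2 := by
        have g4 : w ⬝ᵥ (C *ᵥ y) = w ⬝ᵥ w - τ * (b ⬝ᵥ w) := by rw [g1]; ring
        rw [g4]
        have : (s * τ + w ⬝ᵥ y) ^ 2 = s ^ 2 * τ ^ 2 + 2 * s * τ * (w ⬝ᵥ y) + (w ⬝ᵥ y) ^ 2 := by ring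
        rw [this, hτX]
        ring
      rw [this]
      nlinarith [sq_nonneg (s * τ + w ⬝ᵥ y)]
    have := (mul_nonneg_iff_of_pos_left h0).mp key
    linarith

theorem NF.BB_le {d : ℕ} (S : NF d) (τ : ℝ) (y : Fin d → ℝ) :
    S.BB τ y ≤ S.be * (τ ^ 2 + y ⬝ᵥ y) := by
  rw [← S.be_eq, Finset.sum_mul]
  unfold NF.BB
  exact Finset.sum_le_sum fun i _ => ps2_skew (S.C i) (S.skew i) (S.b i) y τ

theorem NF.SS_sq {d : ℕ} (S : NF d) (y : Fin d → ℝ) :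
    S.SS y ^ 2 ≤ S.pp y * (S.be * (y ⬝ᵥ y)) := by
  have h1 : S.SS y ^ 2 ≤ S.pp y * ∑ i, (S.b i ⬝ᵥ y) ^ 2 := by
    unfold NF.SS NF.pp
    exact Finset.sum_mul_sq_le_sq_mul_sq Finset.univ _ _
  have h2 : ∑ i, (S.b i ⬝ᵥ y) ^ 2 ≤ S.BB 0 y := by
    unfold NF.BB
    refine Finset.sum_le_sum fun i _ => ?_
    have := ps2_dot_nonneg ((0 : ℝ) • S.b i + S.C i *ᵥ y)
    linarith
  have h3 := S.BB_le 0 y
  have h4 : S.be * ((0 : ℝ) ^ 2 + y ⬝ᵥ y) = S.be * (y ⬝ᵥ y) := by ring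
  rw [h4] at h3
  exact h1.trans (mul_le_mul_of_nonneg_left (h2.trans h3)
    (Finset.sum_nonneg fun i _ => sq_nonneg _))

end Pool.Agent.Helper19.PS
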